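import Pool.Agent.N881.GW.S9

/-!
# The rank conjecture and the sums over primes at the central point

`E` is an elliptic curve over a number field `K`, `S` a finite set of finite places containing those
above `6`, and `L_S(E, s)` the Euler product over the places outside `S`.  The real sum

`R_A(x) = √(A / (π log x)) ∑_{v ∉ S, j ≥ 1} (α_v^j + β_v^j) log(Nv) Nv^{-j} exp (-A (log (Nv^j / x))² / log x)`

is used.  For a fixed `A` and natural number `r`, the statement `R_A(x) = - r + O(x^{-κ})` is equivalent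
to the analytic continuation of `L_S(E, s)` to an explicit region containing the point `1`, with a zero
of order exactly `r` at `1` and no other zero in that region.  If `R_A(x) = - rk E(K) + O(x^{-η})` for
one `A > 0` and one `η > 0`, then both statements of the rank conjecture hold for `E`.
-/

set_option autoImplicit false

namespace Pool.Agent.Results.MP_32c55d_nt.CentralCriterion

open NumberField IsDedekindDomain

/-- `W v` is, for every finite place `v`, an integral model of `E` with discriminant minimal at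
`v`. -/
def MinimalModels {K : Type} [Field K] [NumberField K] (E : WeierstrassCurve K)
    (W : HeightOneSpectrum (𝓞 K) → WeierstrassCurve (𝓞 K)) : Prop :=
  ∀ v : HeightOneSpectrum (𝓞 K),
    (∃ C : WeierstrassCurve.VariableChange K, C • (W v).map (algebraMap (𝓞 K) K) = E) ∧
    ∀ W' : WeierstrassCurve (𝓞 K),
      (∃ C : WeierstrassCurve.VariableChange K, C • W'.map (algebraMap (𝓞 K) K) = E) →
      ∀ n : ℕ, (W v).Δ ∈ v.asIdeal ^ n → W'.Δ ∈ v.asIdeal ^ n

section

variable {K : Type} [Field K] [NumberField K]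

/-- `a_v`, the norm `Nv` minus the number of affine points of the reduction of `W v`. -/
noncomputable def trace (W : HeightOneSpectrum (𝓞 K) → WeierstrassCurve (𝓞 K))
    (v : HeightOneSpectrum (𝓞 K)) : ℤ :=
  (Ideal.absNorm v.asIdeal : ℤ)
    - (Nat.card {xy : (𝓞 K ⧸ v.asIdeal) × (𝓞 K ⧸ v.asIdeal) //
        ((W v).map (Ideal.Quotient.mk v.asIdeal)).toAffine.Equation xy.1 xy.2} : ℤ)

open Classical in
/-- `Nv` if the reduction at `v` is good and `0` if it is bad. -/
noncomputable def det (W : HeightOneSpectrum (𝓞 K) → WeierstrassCurve (𝓞 K))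
    (v : HeightOneSpectrum (𝓞 K)) : ℤ :=
  if (W v).Δ ∈ v.asIdeal then 0 else (Ideal.absNorm v.asIdeal : ℤ)

/-- The Euler factor at `v`, `(1 - a_v Nv^{-s} + Nv^{1-2s})⁻¹` if the reduction at `v` is good and
`(1 - a_v Nv^{-s})⁻¹` if it is bad. -/
noncomputable def localFactor (W : HeightOneSpectrum (𝓞 K) → WeierstrassCurve (𝓞 K))
    (v : HeightOneSpectrum (𝓞 K)) (s : ℂ) : ℂ :=
  (1 - (trace W v : ℂ) * (Ideal.absNorm v.asIdeal : ℂ) ^ (-s)
    + (det W v : ℂ) * (Ideal.absNorm v.asIdeal : ℂ) ^ (-2 * s))⁻¹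

/-- The `L`-series, as the Euler product over all finite places. -/
noncomputable def eulerProduct (W : HeightOneSpectrum (𝓞 K) → WeierstrassCurve (𝓞 K)) (s : ℂ) : ℂ :=
  ∏' v : HeightOneSpectrum (𝓞 K), localFactor W v s

open Classical in
/-- The Euler product over the places outside `S`. -/
noncomputable def partialProduct (W : HeightOneSpectrum (𝓞 K) → WeierstrassCurve (𝓞 K))
    (S : Finset (HeightOneSpectrum (𝓞 K))) (s : ℂ) : ℂ :=
  ∏' v : HeightOneSpectrum (𝓞 K), if v ∈ S then 1 else localFactor W v s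

end

/-- The power sums `α ^ n + β ^ n`, where `α + β = a` and `α β = d`. -/
def powerSum (a d : ℤ) : ℕ → ℤ
  | 0 => 2
  | 1 => a
  | (n + 2) => a * powerSum a d (n + 1) - d * powerSum a d n

open Classical in
/-- The sum `R_A(x)`, where the pair `(v, k)` stands for the power `Nv ^ (k + 1)`. -/
noncomputable def average {K : Type} [Field K] [NumberField K]
    (W : HeightOneSpectrum (𝓞 K) → WeierstrassCurve (𝓞 K)) (S : Finset (HeightOneSpectrum (𝓞 K)))
    (A x : ℝ) : ℝ :=
  √(A / (Real.pi * Real.log x)) *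
    ∑' p : HeightOneSpectrum (𝓞 K) × ℕ, if p.1 ∈ S then 0 else
      (powerSum (trace W p.1) (det W p.1) (p.2 + 1) : ℝ) * Real.log (Ideal.absNorm p.1.asIdeal) /
        (Ideal.absNorm p.1.asIdeal : ℝ) ^ (p.2 + 1) *
        Real.exp (-(A * (((p.2 : ℝ) + 1) * Real.log (Ideal.absNorm p.1.asIdeal) - Real.log x) ^ 2 /
          Real.log x))

/-- The region of the `s` with `Re s > 1 - 2 A` and `Re ((s - 1) + (s - 1)² / (4 A)) > - κ`. -/
def openRegion (A κ : ℝ) : Set ℂ :=
  {s : ℂ | 1 - 2 * A < s.re ∧ -κ < ((s - 1) + (s - 1) ^ 2 / (4 * A)).re}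

/-- The region of the `s` with `Re s ≥ 1` and `Re ((s - 1) + (s - 1)² / (4 A)) ≥ 0`.  It meets the line
`Re s = 1` in the point `1` only. -/
def closedRegion (A : ℝ) : Set ℂ :=
  {s : ℂ | 1 ≤ s.re ∧ 0 ≤ ((s - 1) + (s - 1) ^ 2 / (4 * A)).re}

/-- `L` has an analytic continuation from `Re s > 3/2` to a neighbourhood of the set `H`, with a zero
of order `r` at `1` and no other zero in `H`. -/
def Continues (L : ℂ → ℂ) (r : ℕ) (H : Set ℂ) : Prop :=
  ∃ (V : Set ℂ) (F : ℂ → ℂ), IsOpen V ∧ H ⊆ V ∧ AnalyticOnNhd ℂ F V ∧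
    (∀ s ∈ V, 3 / 2 < s.re → F s = L s) ∧ analyticOrderAt F 1 = r ∧ ∀ s ∈ H, s ≠ 1 → F s ≠ 0

open Classical in
/-- **The criterion.**  Let `E` be an elliptic curve over a number field `K`, and `S` a finite set of
finite places of `K` containing the places above `6`.

1. For `0 < κ₀ ≤ A` and every `r` the following are equivalent: `L_S(E, s)` continues analytically to
   the region `openRegion A κ₀`, with a zero of order `r` at `1` and no other zero there;
   `R_A(x) = - r + O(x^{-κ})` for every `κ < κ₀`, for all `x ≥ 2`; the same for all large `x`.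
2. For `A > 0` and every `r`, `L_S(E, s)` continues analytically to a neighbourhood of
   `closedRegion A`, with a zero of order `r` at `1` and no other zero in `closedRegion A`, if and only
   if `R_A(x) = - r + O(x^{-η})` for some `η > 0`.
3. For every `r` the following are equivalent: `L_S(E, s)` continues analytically to a neighbourhood
   of `{Re s > 1} ∪ {1}`, with a zero of order `r` at `1` and no zero with `Re s > 1`; for every
   `A > 0` there is an `η > 0` with `R_A(x) = - r + O(x^{-η})`; there are arbitrarily large such `A`.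
4. If `R_A(x) = - rk E(K) + O(x^{-η})` for some `A > 0` and some `η > 0`, then `L(E, s)` continues
   analytically to a connected open set containing `1` and the half-plane `Re s > 3/2`, and it
   vanishes at `1` to the order `rk E(K)`. -/
theorem result (K : Type) [Field K] [NumberField K] (E : WeierstrassCurve K) [E.IsElliptic]
    (W : HeightOneSpectrum (𝓞 K) → WeierstrassCurve (𝓞 K)) (_ : MinimalModels E W)
    (S : Finset (HeightOneSpectrum (𝓞 K)))
    (hS : ∀ v : HeightOneSpectrum (𝓞 K), (6 : 𝓞 K) ∈ v.asIdeal → v ∈ S) :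
    (∀ (r : ℕ) (A κ₀ : ℝ), 0 < A → 0 < κ₀ → κ₀ ≤ A → List.TFAE [
        Continues (partialProduct W S) r (openRegion A κ₀),
        ∀ κ : ℝ, κ < κ₀ → ∃ C : ℝ, ∀ x : ℝ, 2 ≤ x → |average W S A x + r| ≤ C * x ^ (-κ),
        ∀ κ : ℝ, 0 < κ → κ < κ₀ → ∃ C X : ℝ, ∀ x : ℝ, X ≤ x →
          |average W S A x + r| ≤ C * x ^ (-κ)]) ∧
      (∀ (r : ℕ) (A : ℝ), 0 < A →
        (Continues (partialProduct W S) r (closedRegion A) ↔
          ∃ η : ℝ, 0 < η ∧ ∃ C X : ℝ, ∀ x : ℝ, X ≤ x →
            |average W S A x + r| ≤ C * x ^ (-η))) ∧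
      (∀ r : ℕ, List.TFAE [
        Continues (partialProduct W S) r {s : ℂ | 1 < s.re ∨ s = 1},
        ∀ A : ℝ, 0 < A → ∃ η : ℝ, 0 < η ∧ ∃ C : ℝ, ∀ x : ℝ, 2 ≤ x →
          |average W S A x + r| ≤ C * x ^ (-η),
        ∀ A₀ : ℝ, ∃ A : ℝ, A₀ ≤ A ∧ ∃ η : ℝ, 0 < η ∧ ∃ C X : ℝ, ∀ x : ℝ, X ≤ x →
          |average W S A x + r| ≤ C * x ^ (-η)]) ∧
      ((∃ A η C X : ℝ, 0 < A ∧ 0 < η ∧ ∀ x : ℝ, X ≤ x →
          |average W S A x + Module.finrank ℤ E.toAffine.Point| ≤ C * x ^ (-η)) →
        ∃ (U : Set ℂ) (F : ℂ → ℂ), IsOpen U ∧ IsConnected U ∧ {s : ℂ | (3 / 2 : ℝ) < s.re} ⊆ U ∧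
          (1 : ℂ) ∈ U ∧ AnalyticOnNhd ℂ F U ∧
          (∀ s : ℂ, (3 / 2 : ℝ) < s.re → F s = eulerProduct W s) ∧
          analyticOrderAt F 1 = Module.finrank ℤ E.toAffine.Point) := by
  classical
  have haff : ∀ v, (Nat.card {xy : (𝓞 K ⧸ v.asIdeal) × (𝓞 K ⧸ v.asIdeal) //
      ((W v).map (Ideal.Quotient.mk v.asIdeal)).toAffine.Equation xy.1 xy.2}) =
      Pool.Agent.TH339.MP.affc ((W v).map (Ideal.Quotient.mk v.asIdeal)) := by
    intro v
    unfold Pool.Agent.TH339.MP.affc
    refine Nat.card_congr (Equiv.subtypeEquivRight fun q => ?_)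
    exact WeierstrassCurve.Affine.equation_iff ..
  have htr : ∀ v, trace W v = Pool.Agent.N881.GW.av' W v := by
    intro v
    unfold trace Pool.Agent.N881.GW.av'
    rw [haff v]
    rfl
  have hdet : ∀ v, det W v = Pool.Agent.N881.GW.dv W v := fun v => rfl
  have hlf : ∀ v s, localFactor W v s = Pool.Agent.TH339.MP.elf W v s := by
    intro v s
    unfold localFactor Pool.Agent.TH339.MP.elf Pool.Agent.TH339.MP.lfac
    have h1 : ((Pool.Agent.TH339.MP.av W v : ℝ) : ℂ) = ((trace W v : ℤ) : ℂ) := by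
      unfold Pool.Agent.TH339.MP.av trace
      rw [haff v]
      push_cast
      rfl
    have h2 : (if (W v).Δ ∈ v.asIdeal then 0 else (Pool.Agent.TH339.MP.nm v : ℂ)) =
        ((det W v : ℤ) : ℂ) := by
      unfold det
      split_ifs
      · simp
      · rw [Int.cast_natCast]
        rfl
    rw [h1, h2]
    rfl
  have hfull : ∀ s, eulerProduct W s = ∏' v, Pool.Agent.TH339.MP.elf W v s := by
    intro s
    unfold eulerProduct
    exact tprod_congr fun v => hlf v s
  have hpart : partialProduct W S = Pool.Agent.N881.GW.LSp W S := by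
    funext s
    unfold partialProduct Pool.Agent.N881.GW.LSp
    refine tprod_congr fun v => ?_
    rw [hlf v s]
  have hps : ∀ (a d : ℤ) (n : ℕ), powerSum a d n = Pool.Agent.N881.GW.psum a d n := by
    intro a d n
    induction n using Nat.twoStepInduction with
    | zero => rfl
    | one => rfl
    | more n ih1 ih2 =>
      simp only [powerSum, Pool.Agent.N881.GW.psum]
      rw [ih1, ih2]
  have havg : ∀ A x, average W S A x = Pool.Agent.N881.GW.ravg W S 1 A x := by
    intro A x
    unfold average Pool.Agent.N881.GW.ravg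
    congr 1
    refine tsum_congr fun p => ?_
    split_ifs with h
    · rfl
    · unfold Pool.Agent.N881.GW.rterm
      rw [hps, htr, hdet, div_eq_mul_inv]
      have hn : (0 : ℝ) < Ideal.absNorm p.1.asIdeal := by
        have := Pool.Agent.N881.GW.nm_ge p.1
        unfold Pool.Agent.TH339.MP.nm at this
        linarith
      have h1 : (Pool.Agent.TH339.MP.nm p.1 : ℝ) ^ (-(((p.2 : ℝ) + 1) * 1)) =
          ((Ideal.absNorm p.1.asIdeal : ℝ) ^ (p.2 + 1))⁻¹ := by
        unfold Pool.Agent.TH339.MP.nm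
        rw [mul_one, Real.rpow_neg hn.le]
        congr 1
        rw [← Real.rpow_natCast]
        push_cast
        rfl
      rw [h1]
      rfl
  obtain ⟨β, hLD, hMM⟩ := Pool.Agent.N881.GW.ec_rdata W hS
  have he : (1 : ℝ) ≤ 3 / 2 := by norm_num
  have hav : ∀ A x : ℝ, 0 < A → 1 < x →
      Pool.Agent.N881.GW.MM MeasureTheory.Measure.count (Pool.Agent.N881.GW.uu (K := K))
        (Pool.Agent.N881.GW.cc β) A (Real.log x) (-((3 / 2 - 1 : ℝ) : ℂ)) =
        ((average W S A x : ℝ) : ℂ) := by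
    intro A x hA hx
    rw [havg]
    exact hMM 1 A x hA hx
  have hnorm : ∀ (r : ℕ) (A x : ℝ), ‖((average W S A x : ℝ) : ℂ) + ((r : ℤ) : ℂ)‖ =
      |average W S A x + r| := by
    intro r A x
    rw [← Real.norm_eq_abs, ← Complex.norm_real]
    push_cast
    rfl
  have hac : ∀ (r : ℕ) (H : Set ℂ), Continues (partialProduct W S) r H ↔
      Pool.Agent.N881.GW.AC (Pool.Agent.N881.GW.LSp W S) (3 / 2) 1 r H := by
    intro r H
    unfold Continues Pool.Agent.N881.GW.AC
    rw [hpart]
    push_cast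
    rfl
  have hre : ∀ (A : ℝ) (s : ℂ), 0 < A → (((s - 1) + (s - 1) ^ 2 / (4 * A)).re =
      Pool.Agent.N881.GW.xr A (s - 1)) := fun A s hA => Pool.Agent.N881.GW.xr_eq hA.ne' (s - 1)
  have hopen : ∀ A κ : ℝ, 0 < A → openRegion A κ =
      {s : ℂ | s - ((1 : ℝ) : ℂ) ∈ Pool.Agent.N881.GW.reg A κ} := by
    intro A κ hA
    ext s
    unfold openRegion Pool.Agent.N881.GW.reg
    simp only [Set.mem_ofPred_eq, Complex.ofReal_one]
    rw [hre A s hA, Complex.sub_re, Complex.one_re]
    constructor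
    · rintro ⟨h1, h2⟩
      exact ⟨by linarith, h2⟩
    · rintro ⟨h1, h2⟩
      exact ⟨by linarith, h2⟩
  have hclosed : ∀ A : ℝ, 0 < A → closedRegion A =
      {s : ℂ | s - ((1 : ℝ) : ℂ) ∈ Pool.Agent.N881.GW.clr A} := by
    intro A hA
    ext s
    constructor
    · rintro ⟨h1, h2⟩
      refine ⟨?_, ?_⟩
      · rw [Complex.ofReal_one, Complex.sub_re, Complex.one_re]
        linarith
      · rw [hre A s hA] at h2
        rw [Complex.ofReal_one]
        exact h2
    · intro h
      have h' : s - ((1 : ℝ) : ℂ) ∈ Pool.Agent.N881.GW.clr A := h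
      refine ⟨?_, ?_⟩
      · rcases Pool.Agent.N881.GW.clr_re hA h' with h1 | h1
        · rw [Complex.ofReal_one, Complex.sub_re, Complex.one_re] at h1
          linarith
        · rw [sub_eq_zero] at h1
          rw [h1, Complex.ofReal_re]
      · rw [hre A s hA]
        have := h'.2
        rwa [Complex.ofReal_one] at this
  have h1o : ∀ A κ : ℝ, 0 < A → 0 < κ → ((1 : ℝ) : ℂ) ∈ openRegion A κ := by
    intro A κ hA hκ
    rw [hopen A κ hA]
    show ((1 : ℝ) : ℂ) - ((1 : ℝ) : ℂ) ∈ Pool.Agent.N881.GW.reg A κ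
    rw [sub_self]
    exact Pool.Agent.N881.GW.zero_mem_reg hA hκ
  have h1c : ∀ A : ℝ, 0 < A → ((1 : ℝ) : ℂ) ∈ closedRegion A := by
    intro A hA
    rw [hclosed A hA]
    show ((1 : ℝ) : ℂ) - ((1 : ℝ) : ℂ) ∈ Pool.Agent.N881.GW.clr A
    rw [sub_self]
    exact Pool.Agent.N881.GW.zero_mem_clr hA
  refine ⟨?_, ?_, ?_, ?_⟩
  · intro r A κ₀ hA hκ0 hκA
    have key := hLD.centre_one he hav (r : ℤ) hA hκ0 hκA
    have h1 : Continues (partialProduct W S) r (openRegion A κ₀) ↔
        ∃ F : ℂ → ℂ, (∀ s : ℂ, s - ((1 : ℝ) : ℂ) ∈ Pool.Agent.N881.GW.reg A κ₀ → 3 / 2 < s.re →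
            F s = Pool.Agent.N881.GW.LSp W S s) ∧
          ∀ s : ℂ, s - ((1 : ℝ) : ℂ) ∈ Pool.Agent.N881.GW.reg A κ₀ →
            MeromorphicAt F s ∧
              meromorphicOrderAt F s = (Pool.Agent.N881.GW.pt 1 (r : ℤ) s : WithTop ℤ) := by
      rw [hac, Pool.Agent.N881.GW.AC_iff hLD he (h1o A κ₀ hA hκ0), hopen A κ₀ hA]
      constructor
      · intro h
        obtain ⟨V, F, _, h2, _, h4, h5⟩ := h.exists_open hLD he
        exact ⟨F, fun s hs hse => h4 s (h2 hs) hse, fun s hs => h5 s (h2 hs)⟩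
      · rintro ⟨F, h2, h3⟩
        have hsh : Continuous fun s : ℂ => s - ((1 : ℝ) : ℂ) := by fun_prop
        exact ⟨_, F, (Pool.Agent.N881.GW.isOpen_reg A κ₀).preimage hsh, subset_rfl,
          fun s hs => (h3 s hs).1, fun s hs hse => h2 s hs hse, fun s hs => (h3 s hs).2⟩
    have h12 := key.out 0 1
    have h13 := key.out 0 2
    simp only [hnorm] at h12 h13
    tfae_have 1 ↔ 2 := h1.trans h12
    tfae_have 1 ↔ 3 := h1.trans h13
    tfae_finish
  · intro r A hA
    have key := hLD.saving he hav (r : ℤ) hA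
    have h13 := key.out 0 2
    simp only [hnorm] at h13
    rw [hac, Pool.Agent.N881.GW.AC_iff hLD he (h1c A hA), hclosed A hA]
    exact h13
  · intro r
    have key := hLD.all he hav (r : ℤ)
    have h12 := key.out 0 1
    have h13 := key.out 0 2
    simp only [hnorm] at h12 h13
    have hset : {s : ℂ | 1 < s.re ∨ s = 1} = {s : ℂ | (1 : ℝ) < s.re ∨ s = ((1 : ℝ) : ℂ)} := by
      rw [Complex.ofReal_one]
    have h1 : Continues (partialProduct W S) r {s : ℂ | 1 < s.re ∨ s = 1} ↔
        Pool.Agent.N881.GW.MC (Pool.Agent.N881.GW.LSp W S) (3 / 2) 1 (r : ℤ)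
          {s : ℂ | (1 : ℝ) < s.re ∨ s = ((1 : ℝ) : ℂ)} := by
      rw [hac, hset]
      exact Pool.Agent.N881.GW.AC_iff hLD he (Or.inr rfl)
    tfae_have 1 ↔ 2 := h1.trans h12
    tfae_have 1 ↔ 3 := h1.trans h13
    tfae_finish
  · rintro ⟨A, η, C, X, hA, hη, hC⟩
    set r : ℕ := Module.finrank ℤ E.toAffine.Point with hr
    have key := hLD.saving he hav (r : ℤ) hA
    have h13 := key.out 0 2
    simp only [hnorm] at h13
    have hmc := h13.2 ⟨η, hη, C, X, hC⟩
    rw [← Pool.Agent.N881.GW.AC_iff hLD he (by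
      rw [← hclosed A hA]
      exact h1c A hA)] at hmc
    obtain ⟨V, F, hV, hHV, hF, hFL, hFr, _⟩ := hmc
    rw [Complex.ofReal_one] at hFr
    obtain ⟨U, G, k1, k2, k3, k4, k5, k6, k7⟩ := Pool.Agent.N881.GW.ec_full W hS hV
      (fun t ht => hHV (by
        rw [← hclosed A hA]
        refine ⟨?_, ?_⟩
        · rw [Complex.ofReal_re]
          exact ht
        · rw [hre A _ hA]
          unfold Pool.Agent.N881.GW.xr
          rw [Complex.sub_re, Complex.sub_im, Complex.ofReal_re, Complex.ofReal_im, Complex.one_re,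
            Complex.one_im, sub_zero]
          have h4 : 0 ≤ ((t - 1) ^ 2 - 0 ^ 2) / (4 * A) := by
            apply div_nonneg
            · nlinarith
            · positivity
          linarith)) hF hFL hFr
    exact ⟨U, G, k1, k2, k3, k4, k5, fun s hs => by rw [k6 s hs, hfull s], k7⟩

end Pool.Agent.Results.MP_32c55d_nt.CentralCriterion
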