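import Pool.Agent.N881.GW.U9

/-!
# The leading term at the central point and smoothed Euler products

`E` is an elliptic curve over a number field `K`, `S` a finite set of finite places containing those
above `6`, and `L_S(E, s)` the Euler product over the places outside `S`.  For `A > 0` let

`P_A(x) = exp ∑_{v ∉ S, j ≥ 1} (α_v^j + β_v^j) / (j Nv^j) · W_A(log x, j log Nv)`,

where `W_A(y, u) = ∫_0^y u/t · √(A / (π t)) exp (-A (u - t)² / t) dt` lies between `0` and `1`, is close
to `1` if `u` is much smaller than `y`, and is close to `0` if `u` is much larger than `y`.  So `P_A(x)`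
is a smoothed version of the product of the Euler factors at `s = 1` for `Nv ≤ x`.  The asymptotic
formula

`P_A(x) (e^γ log x)^r = c + O(x^{-κ})`

is shown to be equivalent to the analytic continuation of `L_S(E, s)` to an explicit region
containing the point `1`, with a zero of order `r` and with leading coefficient `c` at `1`, and no other
zero in that region.  Nothing is assumed on `E` or `K`.
-/

set_option autoImplicit false

namespace Pool.Agent.Results.MP_92892c_nt.LeadingTermCriterion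

open NumberField IsDedekindDomain Filter Topology

/-- `W v` is, for every finite place `v`, an integral model of `E` with discriminant minimal at
`v`. -/
def MinimalModels {K : Type} [Field K] [NumberField K] (E : WeierstrassCurve K)
    (W : HeightOneSpectrum (𝓞 K) → WeierstrassCurve (𝓞 K)) : Prop :=
  ∀ v : HeightOneSpectrum (𝓞 K),
    (∃ C : WeierstrassCurve.VariableChange K, C • (W v).map (algebraMap (𝓞 K) K) = E) ∧
    ∀ W' : WeierstrassCurve (𝓞 K),
      (∃ C : WeierstrassCurve.VariableChange K, C • W'.map (algebraMap (𝓞 K) K) = E) →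
      ∀ n : ℕ, (W v).Δ ∈ v.asIdeal ^ n → W'.Δ ∈ v.asIdeal ^ n

section

variable {K : Type} [Field K] [NumberField K]

/-- `a_v`, the norm `Nv` minus the number of affine points of the reduction of `W v`. -/
noncomputable def trace (W : HeightOneSpectrum (𝓞 K) → WeierstrassCurve (𝓞 K))
    (v : HeightOneSpectrum (𝓞 K)) : ℤ :=
  (Ideal.absNorm v.asIdeal : ℤ)
    - (Nat.card {xy : (𝓞 K ⧸ v.asIdeal) × (𝓞 K ⧸ v.asIdeal) //
        ((W v).map (Ideal.Quotient.mk v.asIdeal)).toAffine.Equation xy.1 xy.2} : ℤ)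

open Classical in
/-- `Nv` if the reduction at `v` is good and `0` if it is bad. -/
noncomputable def det (W : HeightOneSpectrum (𝓞 K) → WeierstrassCurve (𝓞 K))
    (v : HeightOneSpectrum (𝓞 K)) : ℤ :=
  if (W v).Δ ∈ v.asIdeal then 0 else (Ideal.absNorm v.asIdeal : ℤ)

/-- The Euler factor at `v`, `(1 - a_v Nv^{-s} + Nv^{1-2s})⁻¹` if the reduction at `v` is good and
`(1 - a_v Nv^{-s})⁻¹` if it is bad. -/
noncomputable def localFactor (W : HeightOneSpectrum (𝓞 K) → WeierstrassCurve (𝓞 K))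
    (v : HeightOneSpectrum (𝓞 K)) (s : ℂ) : ℂ :=
  (1 - (trace W v : ℂ) * (Ideal.absNorm v.asIdeal : ℂ) ^ (-s)
    + (det W v : ℂ) * (Ideal.absNorm v.asIdeal : ℂ) ^ (-2 * s))⁻¹

/-- The `L`-series, as the Euler product over all finite places. -/
noncomputable def eulerProduct (W : HeightOneSpectrum (𝓞 K) → WeierstrassCurve (𝓞 K)) (s : ℂ) : ℂ :=
  ∏' v : HeightOneSpectrum (𝓞 K), localFactor W v s

open Classical in
/-- The Euler product over the places outside `S`. -/
noncomputable def partialProduct (W : HeightOneSpectrum (𝓞 K) → WeierstrassCurve (𝓞 K))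
    (S : Finset (HeightOneSpectrum (𝓞 K))) (s : ℂ) : ℂ :=
  ∏' v : HeightOneSpectrum (𝓞 K), if v ∈ S then 1 else localFactor W v s

end

/-- The power sums `α ^ n + β ^ n`, where `α + β = a` and `α β = d`. -/
def powerSum (a d : ℤ) : ℕ → ℤ
  | 0 => 2
  | 1 => a
  | (n + 2) => a * powerSum a d (n + 1) - d * powerSum a d n

/-- The weight `W_A(y, u) = ∫_0^y u/t · √(A / (π t)) exp (-A (u - t)² / t) dt`. -/
noncomputable def weight (A y u : ℝ) : ℝ :=
  ∫ t in Set.Ioc (0 : ℝ) y, u / t * (√(A / (Real.pi * t)) * Real.exp (-(A * (u - t) ^ 2 / t)))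

open Classical in
/-- The term of `log P_A(x)` at the pair `(v, k)`, which stands for the power `Nv ^ (k + 1)`. -/
noncomputable def logTerm {K : Type} [Field K] [NumberField K]
    (W : HeightOneSpectrum (𝓞 K) → WeierstrassCurve (𝓞 K)) (S : Finset (HeightOneSpectrum (𝓞 K)))
    (A x : ℝ) (p : HeightOneSpectrum (𝓞 K) × ℕ) : ℝ :=
  if p.1 ∈ S then 0 else
    (powerSum (trace W p.1) (det W p.1) (p.2 + 1) : ℝ) /
        (((p.2 : ℝ) + 1) * (Ideal.absNorm p.1.asIdeal : ℝ) ^ (p.2 + 1)) *
      weight A (Real.log x) (((p.2 : ℝ) + 1) * Real.log (Ideal.absNorm p.1.asIdeal))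

/-- The smoothed product `P_A(x)`. -/
noncomputable def smoothProduct {K : Type} [Field K] [NumberField K]
    (W : HeightOneSpectrum (𝓞 K) → WeierstrassCurve (𝓞 K)) (S : Finset (HeightOneSpectrum (𝓞 K)))
    (A x : ℝ) : ℝ :=
  Real.exp (∑' p : HeightOneSpectrum (𝓞 K) × ℕ, logTerm W S A x p)

/-- `P_A(x) (e^γ log x)^r = c + O(x^{-κ})` for all large `x`. -/
def Asymptotic {K : Type} [Field K] [NumberField K]
    (W : HeightOneSpectrum (𝓞 K) → WeierstrassCurve (𝓞 K)) (S : Finset (HeightOneSpectrum (𝓞 K)))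
    (A : ℝ) (r : ℕ) (c κ : ℝ) : Prop :=
  ∃ C X : ℝ, ∀ x : ℝ, X ≤ x →
    |smoothProduct W S A x * (Real.exp Real.eulerMascheroniConstant * Real.log x) ^ r - c| ≤
      C * x ^ (-κ)

/-- The region of the `s` with `Re s > 1 - 2 A` and `Re ((s - 1) + (s - 1)² / (4 A)) > - κ`. -/
def openRegion (A κ : ℝ) : Set ℂ :=
  {s : ℂ | 1 - 2 * A < s.re ∧ -κ < ((s - 1) + (s - 1) ^ 2 / (4 * A)).re}

/-- The region of the `s` with `Re s ≥ 1` and `Re ((s - 1) + (s - 1)² / (4 A)) ≥ 0`.  It meets the line
`Re s = 1` in the point `1` only. -/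
def closedRegion (A : ℝ) : Set ℂ :=
  {s : ℂ | 1 ≤ s.re ∧ 0 ≤ ((s - 1) + (s - 1) ^ 2 / (4 * A)).re}

/-- `L` has an analytic continuation `F` from `Re s > 3/2` to a neighbourhood of the set `H`, without
zeros in `H` other than `1`, and `F(s) / (s - 1)^r` tends to `c` when `s` tends to `1`. -/
def LeadingTerm (L : ℂ → ℂ) (r : ℕ) (c : ℝ) (H : Set ℂ) : Prop :=
  ∃ (V : Set ℂ) (F : ℂ → ℂ), IsOpen V ∧ H ⊆ V ∧ AnalyticOnNhd ℂ F V ∧
    (∀ s ∈ V, 3 / 2 < s.re → F s = L s) ∧ (∀ s ∈ H, s ≠ 1 → F s ≠ 0) ∧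
    Tendsto (fun s => F s / (s - 1) ^ r) (𝓝[≠] 1) (𝓝 (c : ℂ))

open Classical in
/-- **The leading term criterion.**  Let `E` be an elliptic curve over a number field `K`, and `S` a
finite set of finite places of `K` containing the places above `6`.

0. The sum that defines `P_A(x)` converges absolutely.
1. For `0 < κ₀ ≤ A`, `c > 0` and every `r`: `L_S(E, s)` continues analytically to the region
   `openRegion A κ₀`, with order `r` and leading coefficient `c` at `1` and no other zero there, if and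
   only if `P_A(x) (e^γ log x)^r = c + O(x^{-κ})` for every positive `κ < κ₀`.
2. For `A > 0`, `c > 0` and every `r`: `L_S(E, s)` continues analytically to a neighbourhood of
   `closedRegion A`, with order `r` and leading coefficient `c` at `1` and no other zero in
   `closedRegion A`, if and only if `P_A(x) (e^γ log x)^r = c + O(x^{-η})` for some `η > 0`.
3. For `c > 0` and every `r` the following are equivalent: `L_S(E, s)` continues analytically to a
   neighbourhood of `{Re s > 1} ∪ {1}`, with order `r` and leading coefficient `c` at `1` and no zero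
   with `Re s > 1`; for every `A > 0` there is an `η > 0` with
   `P_A(x) (e^γ log x)^r = c + O(x^{-η})`; there are arbitrarily large such `A`.
4. If `P_A(x) (e^γ log x)^r = c + O(x^{-η})` for some `A > 0`, `η > 0` and `c > 0`, then `L(E, s)`
   continues analytically to a connected open set containing `1` and the half-plane `Re s > 3/2`, and
   `L(E, s) / (s - 1)^r` tends to `c ∏_{v ∈ S} L_v(E, 1)` when `s` tends to `1`. -/
theorem result (K : Type) [Field K] [NumberField K] (E : WeierstrassCurve K) [E.IsElliptic]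
    (W : HeightOneSpectrum (𝓞 K) → WeierstrassCurve (𝓞 K)) (_ : MinimalModels E W)
    (S : Finset (HeightOneSpectrum (𝓞 K)))
    (hS : ∀ v : HeightOneSpectrum (𝓞 K), (6 : 𝓞 K) ∈ v.asIdeal → v ∈ S) :
    (∀ A x : ℝ, 0 < A → Summable (logTerm W S A x)) ∧
      (∀ (r : ℕ) (A κ₀ c : ℝ), 0 < κ₀ → κ₀ ≤ A → 0 < c →
        (LeadingTerm (partialProduct W S) r c (openRegion A κ₀) ↔
          ∀ κ : ℝ, 0 < κ → κ < κ₀ → Asymptotic W S A r c κ)) ∧
      (∀ (r : ℕ) (A c : ℝ), 0 < A → 0 < c →
        (LeadingTerm (partialProduct W S) r c (closedRegion A) ↔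
          ∃ η : ℝ, 0 < η ∧ Asymptotic W S A r c η)) ∧
      (∀ (r : ℕ) (c : ℝ), 0 < c → List.TFAE [
        LeadingTerm (partialProduct W S) r c {s : ℂ | 1 < s.re ∨ s = 1},
        ∀ A : ℝ, 0 < A → ∃ η : ℝ, 0 < η ∧ Asymptotic W S A r c η,
        ∀ A₀ : ℝ, ∃ A : ℝ, A₀ ≤ A ∧ 0 < A ∧ ∃ η : ℝ, 0 < η ∧ Asymptotic W S A r c η]) ∧
      (∀ (r : ℕ) (A c η : ℝ), 0 < A → 0 < c → 0 < η → Asymptotic W S A r c η →
        ∃ (U : Set ℂ) (F : ℂ → ℂ), IsOpen U ∧ IsConnected U ∧ {s : ℂ | (3 / 2 : ℝ) < s.re} ⊆ U ∧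
          (1 : ℂ) ∈ U ∧ AnalyticOnNhd ℂ F U ∧
          (∀ s : ℂ, (3 / 2 : ℝ) < s.re → F s = eulerProduct W s) ∧
          Tendsto (fun s => F s / (s - 1) ^ r) (𝓝[≠] 1)
            (𝓝 (c * ∏ v ∈ S, localFactor W v 1))) := by
  classical
  have haff : ∀ v, (Nat.card {xy : (𝓞 K ⧸ v.asIdeal) × (𝓞 K ⧸ v.asIdeal) //
      ((W v).map (Ideal.Quotient.mk v.asIdeal)).toAffine.Equation xy.1 xy.2}) =
      Pool.Agent.TH339.MP.affc ((W v).map (Ideal.Quotient.mk v.asIdeal)) := by
    intro v
    unfold Pool.Agent.TH339.MP.affc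
    refine Nat.card_congr (Equiv.subtypeEquivRight fun q => ?_)
    exact WeierstrassCurve.Affine.equation_iff ..
  have htr : ∀ v, trace W v = Pool.Agent.N881.GW.av' W v := by
    intro v
    unfold trace Pool.Agent.N881.GW.av'
    rw [haff v]
    rfl
  have hdet : ∀ v, det W v = Pool.Agent.N881.GW.dv W v := fun v => rfl
  have hlf : ∀ v s, localFactor W v s = Pool.Agent.TH339.MP.elf W v s := by
    intro v s
    unfold localFactor Pool.Agent.TH339.MP.elf Pool.Agent.TH339.MP.lfac
    have h1 : ((Pool.Agent.TH339.MP.av W v : ℝ) : ℂ) = ((trace W v : ℤ) : ℂ) := by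
      unfold Pool.Agent.TH339.MP.av trace
      rw [haff v]
      push_cast
      rfl
    have h2 : (if (W v).Δ ∈ v.asIdeal then 0 else (Pool.Agent.TH339.MP.nm v : ℂ)) =
        ((det W v : ℤ) : ℂ) := by
      unfold det
      split_ifs
      · simp
      · rw [Int.cast_natCast]
        rfl
    rw [h1, h2]
    rfl
  have hfull : ∀ s, eulerProduct W s = ∏' v, Pool.Agent.TH339.MP.elf W v s := by
    intro s
    unfold eulerProduct
    exact tprod_congr fun v => hlf v s
  have hpart : partialProduct W S = Pool.Agent.N881.GW.LSp W S := by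
    funext s
    unfold partialProduct Pool.Agent.N881.GW.LSp
    refine tprod_congr fun v => ?_
    rw [hlf v s]
  have hps : ∀ (a d : ℤ) (n : ℕ), powerSum a d n = Pool.Agent.N881.GW.psum a d n := by
    intro a d n
    induction n using Nat.twoStepInduction with
    | zero => rfl
    | one => rfl
    | more n ih1 ih2 =>
      simp only [powerSum, Pool.Agent.N881.GW.psum]
      rw [ih1, ih2]
  have hterm : ∀ (A x : ℝ) (p : HeightOneSpectrum (𝓞 K) × ℕ), logTerm W S A x p =
      if p.1 ∈ S then 0 else Pool.Agent.N881.GW.gterm W 1 A (Real.log x) p := by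
    intro A x p
    unfold logTerm
    split_ifs with h
    · rfl
    · unfold Pool.Agent.N881.GW.gterm
      have hn : (0 : ℝ) < Ideal.absNorm p.1.asIdeal := by
        have := Pool.Agent.N881.GW.nm_ge p.1
        unfold Pool.Agent.TH339.MP.nm at this
        linarith
      have h1 : (Pool.Agent.TH339.MP.nm p.1 : ℝ) ^ (-(((p.2 : ℝ) + 1) * 1)) =
          ((Ideal.absNorm p.1.asIdeal : ℝ) ^ (p.2 + 1))⁻¹ := by
        unfold Pool.Agent.TH339.MP.nm
        rw [mul_one, Real.rpow_neg hn.le]
        congr 1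
        rw [← Real.rpow_natCast]
        push_cast
        rfl
      have h2 : weight A (Real.log x) (((p.2 : ℝ) + 1) * Real.log (Ideal.absNorm p.1.asIdeal)) =
          Pool.Agent.N881.GW.WW A (Real.log x)
            (((p.2 : ℝ) + 1) * Real.log (Pool.Agent.TH339.MP.nm p.1)) := rfl
      rw [h1, h2, hps, htr, hdet, div_mul_eq_div_div]
      rfl
  have hsm : ∀ A x : ℝ, smoothProduct W S A x =
      Real.exp (Pool.Agent.N881.GW.gsum W S 1 A (Real.log x)) := by
    intro A x
    unfold smoothProduct Pool.Agent.N881.GW.gsum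
    congr 1
    exact tsum_congr fun p => hterm A x p
  obtain ⟨β, hLG, hGG⟩ := Pool.Agent.N881.GW.ec_gdata W hS
  have he : (1 : ℝ) ≤ 3 / 2 := by norm_num
  have hasy : ∀ (A : ℝ) (r : ℕ) (c κ : ℝ), Asymptotic W S A r c κ ↔
      Pool.Agent.N881.GW.QB (Pool.Agent.N881.GW.gsum W S 1 A) r c κ := by
    intro A r c κ
    unfold Asymptotic Pool.Agent.N881.GW.QB Pool.Agent.N881.GW.QQ
    simp only [hsm]
  have hlc : ∀ (r : ℕ) (c : ℝ) (H : Set ℂ), LeadingTerm (partialProduct W S) r c H ↔
      Pool.Agent.N881.GW.LC (Pool.Agent.N881.GW.LSp W S) (3 / 2) 1 r (c : ℂ) H := by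
    intro r c H
    unfold LeadingTerm Pool.Agent.N881.GW.LC
    rw [hpart]
    push_cast
    rfl
  have hre : ∀ (A : ℝ) (s : ℂ), 0 < A → (((s - 1) + (s - 1) ^ 2 / (4 * A)).re =
      Pool.Agent.N881.GW.xr A (s - 1)) := fun A s hA => Pool.Agent.N881.GW.xr_eq hA.ne' (s - 1)
  have hopen : ∀ A κ : ℝ, 0 < A → openRegion A κ =
      {s : ℂ | s - ((1 : ℝ) : ℂ) ∈ Pool.Agent.N881.GW.reg A κ} := by
    intro A κ hA
    ext s
    unfold openRegion Pool.Agent.N881.GW.reg
    simp only [Set.mem_ofPred_eq, Complex.ofReal_one]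
    rw [hre A s hA, Complex.sub_re, Complex.one_re]
    constructor
    · rintro ⟨h1, h2⟩
      exact ⟨by linarith, h2⟩
    · rintro ⟨h1, h2⟩
      exact ⟨by linarith, h2⟩
  have hclosed : ∀ A : ℝ, 0 < A → closedRegion A =
      {s : ℂ | s - ((1 : ℝ) : ℂ) ∈ Pool.Agent.N881.GW.clr A} := by
    intro A hA
    ext s
    constructor
    · rintro ⟨h1, h2⟩
      refine ⟨?_, ?_⟩
      · rw [Complex.ofReal_one, Complex.sub_re, Complex.one_re]
        linarith
      · rw [hre A s hA] at h2
        rw [Complex.ofReal_one]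
        exact h2
    · intro h
      have h' : s - ((1 : ℝ) : ℂ) ∈ Pool.Agent.N881.GW.clr A := h
      refine ⟨?_, ?_⟩
      · rcases Pool.Agent.N881.GW.clr_re hA h' with h1 | h1
        · rw [Complex.ofReal_one, Complex.sub_re, Complex.one_re] at h1
          linarith
        · rw [sub_eq_zero] at h1
          rw [h1, Complex.ofReal_re]
      · rw [hre A s hA]
        have := h'.2
        rwa [Complex.ofReal_one] at this
  have hGG1 : ∀ A y : ℝ, 0 < A →
      Pool.Agent.N881.GW.GG MeasureTheory.Measure.count (Pool.Agent.N881.GW.uu (K := K))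
        (Pool.Agent.N881.GW.cc β) A (3 / 2 - 1) y =
        (Pool.Agent.N881.GW.gsum W S 1 A y : ℂ) := fun A y hA => hGG 1 A y hA
  refine ⟨?_, ?_, ?_, ?_, ?_⟩
  · intro A x hA
    have h1 := Pool.Agent.N881.GW.ec_summable W hS 1 (Real.log x) hA
    exact h1.congr fun p => (hterm A x p).symm
  · intro r A κ₀ c hκ0 hκA hc
    have hA : 0 < A := lt_of_lt_of_le hκ0 hκA
    rw [hlc, hopen A κ₀ hA]
    simp only [hasy]
    exact hLG.prod he (fun y => hGG1 A y hA) hA hκ0 hκA hc
  · intro r A c hA hc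
    rw [hlc, hclosed A hA]
    simp only [hasy]
    exact hLG.prod_saving he (fun y => hGG1 A y hA) hA hc
  · intro r c hc
    simp only [hlc, hasy]
    have hset : {s : ℂ | 1 < s.re ∨ s = 1} = {s : ℂ | (1 : ℝ) < s.re ∨ s = ((1 : ℝ) : ℂ)} := by
      rw [Complex.ofReal_one]
    rw [hset]
    exact hLG.prod_all he hGG1 hc
  · intro r A c η hA hc hη h
    rw [hasy] at h
    obtain ⟨V, F, hV, hHV, hF, hFL, _, hFt⟩ :=
      (hLG.prod_saving he (fun y => hGG1 A y hA) hA hc).2 ⟨η, hη, h⟩
    rw [Complex.ofReal_one] at hFt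
    obtain ⟨U, G, k1, k2, k3, k4, k5, k6, k7⟩ := Pool.Agent.N881.GW.ec_full_lead W hS hV
      (fun t ht => hHV (by
        rw [← hclosed A hA]
        refine ⟨?_, ?_⟩
        · rw [Complex.ofReal_re]
          exact ht
        · rw [hre A _ hA]
          unfold Pool.Agent.N881.GW.xr
          rw [Complex.sub_re, Complex.sub_im, Complex.ofReal_re, Complex.ofReal_im, Complex.one_re,
            Complex.one_im, sub_zero]
          have h4 : 0 ≤ ((t - 1) ^ 2 - 0 ^ 2) / (4 * A) := by
            apply div_nonneg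
            · nlinarith
            · positivity
          linarith)) hF hFL hFt
    refine ⟨U, G, k1, k2, k3, k4, k5, fun s hs => by rw [k6 s hs, hfull s], ?_⟩
    have h5 : ∏ v ∈ S, localFactor W v 1 = ∏ v ∈ S, Pool.Agent.TH339.MP.elf W v 1 :=
      Finset.prod_congr rfl fun v _ => hlf v 1
    rw [h5]
    exact k7

end Pool.Agent.Results.MP_92892c_nt.LeadingTermCriterion
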